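import Pool.Agent.U330.Mac.Ell

/-!
# The greatest Gromov mass of the unit ball of a normed space

For every `d ≥ 1` the greatest value of Gromov's mass of an `o`-symmetric convex body `M` of `ℝᵈ`
(with respect to the norm with unit ball `M`) is the volume `π^(d/2) / Γ(d/2 + 1)` of the Euclidean
unit ball, and it is attained exactly by the ellipsoids.

The inequality is proved by Steiner symmetrisation in the manner of Macbeath. For the equality case
one shows that in an extremal body every boundary point belongs to an extremal tuple, deduces that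
the midpoints of the chords of a given direction lying in a plane through the origin are on a line,
so that all plane sections through the origin are ellipses, and concludes with the theorem of Jordan
and von Neumann.
-/

set_option autoImplicit false
open MeasureTheory Set Module Filter Topology Metric

namespace Pool.Agent.Results.MP_77d991_gt.MassMaximum

/-- Euclidean space `ℝᵈ`. -/
abbrev E (d : ℕ) := EuclideanSpace ℝ (Fin d)

/-- `o`-symmetric convex bodies: compact convex sets with non-empty interior and `M = -M`. -/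
structure IsSymmBody {d : ℕ} (M : Set (E d)) : Prop where
  compact : IsCompact M
  convex : Convex ℝ M
  interior_nonempty : (interior M).Nonempty
  symm : ∀ x ∈ M, -x ∈ M

/-- The convex hull of the points `v 1, …, v d` and `-v 1, …, -v d`. -/
def crossPolytope {d : ℕ} (v : Fin d → E d) : Set (E d) :=
  convexHull ℝ (Set.range v ∪ Set.range fun i => -v i)

/-- The largest volume of a cross-polytope `conv {± v 1, …, ± v d}` with linearly independent
`v i ∈ M`. -/
noncomputable def maxCross {d : ℕ} (M : Set (E d)) : ℝ :=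
  sSup {x | ∃ v : Fin d → E d, (∀ i, v i ∈ M) ∧ LinearIndependent ℝ v ∧
    x = (volume (crossPolytope v)).toReal}

/-- Gromov's mass `vol^m_M(M)` of the unit ball `M`. -/
noncomputable def mass {d : ℕ} (M : Set (E d)) : ℝ :=
  2 ^ d / (d.factorial : ℝ) * ((volume M).toReal / maxCross M)

/-- The volume of the Euclidean unit ball of dimension `d`. -/
noncomputable def kappa (d : ℕ) : ℝ := Real.sqrt Real.pi ^ d / Real.Gamma ((d : ℝ) / 2 + 1)

section

variable {m : ℕ}

open Pool.Agent.U330.Mac Pool.Agent.Helper481.RH H829RQ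

theorem kap_eq : kap (m + 1) = ENNReal.ofReal (kappa (m + 1)) := by
  unfold kap kappa
  rw [EuclideanSpace.volume_closedBall]
  simp

theorem kappa_pos : 0 < kappa (m + 1) := by
  unfold kappa
  have : 0 < Real.Gamma (((m + 1 : ℕ) : ℝ) / 2 + 1) := Real.Gamma_pos_of_pos (by positivity)
  positivity

/-- the unit ball of the sum norm -/
theorem hull_std : convexHull ℝ (Set.range (fun i : Fin (m + 1) => (EuclideanSpace.single i 1 : E (m + 1)))
    ∪ Set.range fun i : Fin (m + 1) => -(EuclideanSpace.single i 1 : E (m + 1))) =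
    {x | ∑ i, |x i| ≤ 1} := by
  set S : Set (E (m + 1)) := convexHull ℝ (Set.range (fun i : Fin (m + 1) =>
    (EuclideanSpace.single i 1 : E (m + 1))) ∪
    Set.range fun i : Fin (m + 1) => -(EuclideanSpace.single i 1 : E (m + 1))) with hS
  apply Subset.antisymm
  · refine convexHull_min ?_ ?_
    · rintro x (⟨i, rfl⟩ | ⟨i, rfl⟩)
      · simp only [mem_ofPred_eq]
        rw [Finset.sum_eq_single i]
        · simp
        · intro j _ hj; simp [hj]
        · simp
      · simp only [mem_ofPred_eq]
        rw [Finset.sum_eq_single i]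
        · simp
        · intro j _ hj; simp [hj]
        · simp
    · intro x hx y hy a b ha hb hab
      simp only [mem_ofPred_eq] at hx hy ⊢
      calc ∑ i, |(a • x + b • y) i| ≤ ∑ i, (a * |x i| + b * |y i|) := by
            refine Finset.sum_le_sum fun i _ => ?_
            have : (a • x + b • y) i = a * x i + b * y i := by simp
            rw [this]
            refine (abs_add_le _ _).trans ?_
            rw [abs_mul, abs_mul, abs_of_nonneg ha, abs_of_nonneg hb]
        _ = a * ∑ i, |x i| + b * ∑ i, |y i| := by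
            rw [Finset.sum_add_distrib, Finset.mul_sum, Finset.mul_sum]
        _ ≤ a * 1 + b * 1 := by gcongr
        _ = 1 := by linarith
  · intro x hx
    simp only [mem_ofPred_eq] at hx
    have hconv : Convex ℝ S := convex_convexHull ℝ _
    have hp : ∀ i : Fin (m + 1), (EuclideanSpace.single i 1 : E (m + 1)) ∈ S := fun i =>
      subset_convexHull ℝ _ (Or.inl ⟨i, rfl⟩)
    have hn : ∀ i : Fin (m + 1), -(EuclideanSpace.single i 1 : E (m + 1)) ∈ S := fun i =>
      subset_convexHull ℝ _ (Or.inr ⟨i, rfl⟩)
    have h0 : (0 : E (m + 1)) ∈ S := by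
      have := hconv (hp 0) (hn 0) (a := 1 / 2) (b := 1 / 2) (by norm_num) (by norm_num)
        (by norm_num)
      simpa using this
    set s : ℝ := ∑ i, |x i| with hs
    have hs0 : 0 ≤ s := Finset.sum_nonneg fun i _ => abs_nonneg _
    rcases eq_or_lt_of_le hs0 with h | h
    · have hx0 : x = 0 := by
        ext i
        have h1 : |x i| ≤ s := Finset.single_le_sum (f := fun i => |x i|)
          (fun i _ => abs_nonneg _) (Finset.mem_univ i)
        rw [← h] at h1
        simpa using h1
      rw [hx0]; exact h0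
    · set z : Fin (m + 1) → E (m + 1) := fun i => if 0 ≤ x i then EuclideanSpace.single i 1
        else -(EuclideanSpace.single i 1) with hz
      have hzS : ∀ i, z i ∈ S := by
        intro i
        simp only [hz]
        split_ifs
        · exact hp i
        · exact hn i
      have h1 : ∑ i, (|x i| / s) • z i ∈ S := by
        refine hconv.sum_mem (fun i _ => by positivity) ?_ (fun i _ => hzS i)
        rw [← Finset.sum_div, ← hs, div_self h.ne']
      have h2 : s • ∑ i, (|x i| / s) • z i = x := by
        rw [Finset.smul_sum]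
        have h3 : ∀ i, s • (|x i| / s) • z i = x i • (EuclideanSpace.single i 1 : E (m + 1)) := by
          intro i
          rw [smul_smul, mul_div_cancel₀ _ h.ne']
          simp only [hz]
          split_ifs with hxi
          · rw [abs_of_nonneg hxi]
          · rw [abs_of_neg (not_le.1 hxi), smul_neg, neg_smul, neg_neg]
        simp only [h3]
        ext j
        simp [Finset.sum_apply, Pi.single_apply]
      have h3 := hconv h0 h1 (a := 1 - s) (b := s) (by linarith) hs0 (by ring)
      rwa [smul_zero, zero_add, h2] at h3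

theorem volume_std : volume {x : E (m + 1) | ∑ i, |x i| ≤ 1} =
    ENNReal.ofReal (2 ^ (m + 1) / ((m + 1).factorial : ℝ)) := by
  have h1 := (EuclideanSpace.volume_preserving_symm_measurableEquiv_toLp (Fin (m + 1))).symm
  have h2 := volume_sum_rpow_le (Fin (m + 1)) (p := 1) le_rfl 1
  have h3 : {x : E (m + 1) | ∑ i, |x i| ≤ 1} = (MeasurableEquiv.toLp 2 (Fin (m + 1) → ℝ)).symm ⁻¹'
      {x : Fin (m + 1) → ℝ | (∑ i, |x i| ^ (1 : ℝ)) ^ (1 / (1 : ℝ)) ≤ 1} := by
    ext x
    simp
  rw [h3]
  have h4 := (EuclideanSpace.volume_preserving_symm_measurableEquiv_toLp (Fin (m + 1)))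
  rw [h4.measure_preimage_equiv, h2]
  simp only [ENNReal.ofReal_one, one_pow, one_mul, Fintype.card_fin, div_one]
  congr 1
  have h5 : Real.Gamma (1 + 1) = 1 := by
    have := Real.Gamma_nat_eq_factorial 1
    simpa using this
  have h6 : Real.Gamma (((m + 1 : ℕ) : ℝ) + 1) = ((m + 1).factorial : ℝ) :=
    Real.Gamma_nat_eq_factorial (m + 1)
  rw [h5, h6, mul_one]

theorem det_constr (v : Fin (m + 1) → E (m + 1)) :
    LinearMap.det ((EuclideanSpace.basisFun (Fin (m + 1)) ℝ).toBasis.constr ℝ v) = DE v := by
  rw [← LinearMap.det_toMatrix (EuclideanSpace.basisFun (Fin (m + 1)) ℝ).toBasis]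
  unfold DE
  rw [← Matrix.det_transpose]
  congr 1
  ext i j
  rw [Matrix.transpose_apply, LinearMap.toMatrix_apply, Basis.constr_basis]
  simp

theorem volume_cross (v : Fin (m + 1) → E (m + 1)) : volume (crossPolytope v) =
    ENNReal.ofReal (2 ^ (m + 1) / ((m + 1).factorial : ℝ) * |DE v|) := by
  set L := (EuclideanSpace.basisFun (Fin (m + 1)) ℝ).toBasis.constr ℝ v with hL
  have hLv : ∀ i, L (EuclideanSpace.single i 1) = v i := by
    intro i
    have h1 := (EuclideanSpace.basisFun (Fin (m + 1)) ℝ).toBasis.constr_basis ℝ v i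
    rwa [OrthonormalBasis.coe_toBasis, EuclideanSpace.basisFun_apply] at h1
  have h1 : crossPolytope v = L '' {x | ∑ i, |x i| ≤ 1} := by
    rw [← hull_std, LinearMap.image_convexHull]
    unfold crossPolytope
    congr 1
    rw [image_union, ← range_comp, ← range_comp]
    congr 1
    · congr 1; ext i : 1; exact (hLv i).symm
    · congr 1; ext i : 1
      show -v i = L (-(EuclideanSpace.single i 1))
      rw [map_neg, hLv]
  rw [h1, Measure.addHaar_image_linearMap, volume_std, det_constr, ← ENNReal.ofReal_mul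
    (abs_nonneg _), mul_comm]

/-- the largest determinant -/
theorem exists_max {M : Set (E (m + 1))} (hM : IsSymmBody M) :
    ∃ A : ℝ, 0 < A ∧ BdE A M ∧ ∃ v : Fin (m + 1) → E (m + 1), (∀ i, v i ∈ M) ∧ |DE v| = A := by
  have hne : M.Nonempty := hM.interior_nonempty.mono interior_subset
  have hc : IsCompact {v : Fin (m + 1) → E (m + 1) | ∀ i, v i ∈ M} := by
    have := isCompact_univ_pi (fun _ : Fin (m + 1) => hM.compact)
    convert this using 1
    ext q; simp
  obtain ⟨x, hx⟩ := hne
  obtain ⟨v, hv, hmax⟩ := hc.exists_isMaxOn ⟨fun _ => x, fun _ => hx⟩ (f := fun v => |DE v|)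
    (DE_continuous.abs.continuousOn)
  refine ⟨|DE v|, ?_, fun w hw => hmax hw, v, hv, rfl⟩
  by_contra hcon
  have h0 : |DE v| = 0 := le_antisymm (not_lt.1 hcon) (abs_nonneg _)
  have h1 : BdE 0 M := fun w hw => by
    have := hmax hw
    simp only [mem_ofPred_eq] at this
    rw [h0] at this
    exact this
  have h2 := volume_le_of_bdE hM.compact hM.convex h1
  rw [ENNReal.ofReal_zero, zero_mul] at h2
  have h3 : 0 < volume M := (isOpen_interior.measure_pos volume hM.interior_nonempty).trans_le
    (measure_mono interior_subset)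
  exact absurd h3 (not_lt.2 h2)

theorem zero_mem_interior {M : Set (E (m + 1))} (hM : IsSymmBody M) : (0 : E (m + 1)) ∈ interior M := by
  obtain ⟨x, hx⟩ := hM.interior_nonempty
  have h1 : -x ∈ M := hM.symm x (interior_subset hx)
  have h2 := hM.convex.combo_interior_self_mem_interior hx h1 (a := 1 / 2) (b := 1 / 2)
    (by norm_num) (by norm_num) (by norm_num)
  simpa using h2

theorem maxCross_eq {M : Set (E (m + 1))} {A : ℝ} (hA : 0 < A) (hbd : BdE A M)
    {v : Fin (m + 1) → E (m + 1)} (hv : ∀ i, v i ∈ M) (hvA : |DE v| = A) :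
    maxCross M = 2 ^ (m + 1) / ((m + 1).factorial : ℝ) * A := by
  have hval : ∀ w : Fin (m + 1) → E (m + 1), (volume (crossPolytope w)).toReal =
      2 ^ (m + 1) / ((m + 1).factorial : ℝ) * |DE w| := by
    intro w
    rw [volume_cross, ENNReal.toReal_ofReal (by positivity)]
  apply IsGreatest.csSup_eq
  constructor
  · refine ⟨v, hv, ?_, by rw [hval, hvA]⟩
    have hne : DE v ≠ 0 := by
      intro h0; rw [h0, abs_zero] at hvA; exact hA.ne hvA
    rw [← det_constr] at hne
    have hinj : Function.Injective ((EuclideanSpace.basisFun (Fin (m + 1)) ℝ).toBasis.constr ℝ v) :=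
      (LinearMap.equivOfDetNeZero _ hne).injective
    have h1 := (EuclideanSpace.basisFun (Fin (m + 1)) ℝ).toBasis.linearIndependent.map' _
      (LinearMap.ker_eq_bot.2 hinj)
    have h2 : ((EuclideanSpace.basisFun (Fin (m + 1)) ℝ).toBasis.constr ℝ v) ∘
        (EuclideanSpace.basisFun (Fin (m + 1)) ℝ).toBasis = v := by
      funext i
      exact (EuclideanSpace.basisFun (Fin (m + 1)) ℝ).toBasis.constr_basis ℝ v i
    rwa [h2] at h1
  · rintro x ⟨w, hw, -, rfl⟩
    rw [hval]
    exact mul_le_mul_of_nonneg_left (hbd w hw) (by positivity)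

theorem mass_eq {M : Set (E (m + 1))} {A : ℝ} (hA : 0 < A) (hbd : BdE A M)
    {v : Fin (m + 1) → E (m + 1)} (hv : ∀ i, v i ∈ M) (hvA : |DE v| = A) :
    mass M = (volume M).toReal / A := by
  unfold mass
  rw [maxCross_eq hA hbd hv hvA]
  have : (0 : ℝ) < (m + 1).factorial := by exact_mod_cast Nat.factorial_pos _
  field_simp

theorem mass_le {M : Set (E (m + 1))} (hM : IsSymmBody M) : mass M ≤ kappa (m + 1) := by
  obtain ⟨A, hA, hbd, v, hv, hvA⟩ := exists_max hM
  rw [mass_eq hA hbd hv hvA, div_le_iff₀ hA]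
  have h1 := volume_le_of_bdE hM.compact hM.convex hbd
  rw [kap_eq, ← ENNReal.ofReal_mul hA.le] at h1
  have h2 := ENNReal.toReal_mono ENNReal.ofReal_ne_top h1
  rw [ENNReal.toReal_ofReal (by have := kappa_pos (m := m); positivity)] at h2
  linarith

theorem DE_image (T : E (m + 1) ≃ₗ[ℝ] E (m + 1)) (w : Fin (m + 1) → E (m + 1)) :
    DE (fun i => T (w i)) = LinearMap.det (T : E (m + 1) →ₗ[ℝ] E (m + 1)) * DE w := by
  rw [← det_constr, ← det_constr, ← LinearMap.det_comp]
  congr 1
  apply (EuclideanSpace.basisFun (Fin (m + 1)) ℝ).toBasis.ext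
  intro i
  rw [LinearMap.comp_apply, Basis.constr_basis, Basis.constr_basis]
  rfl

theorem hadamard (w : Fin (m + 1) → E (m + 1)) (hw : ∀ i, ‖w i‖ ≤ 1) : |DE w| ≤ 1 := by
  have : Fact (finrank ℝ (E (m + 1)) = m + 1) := ⟨by simp⟩
  let b := EuclideanSpace.basisFun (Fin (m + 1)) ℝ
  let o : Orientation ℝ (E (m + 1)) (Fin (m + 1)) := b.toBasis.orientation
  have h1 := o.abs_volumeForm_apply_le w
  have h2 : o.volumeForm = b.toBasis.det := o.volumeForm_robust b rfl
  rw [h2, Basis.det_apply] at h1
  have h3 : (b.toBasis.toMatrix w).det = DE w := by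
    unfold DE
    rw [← Matrix.det_transpose]
    congr 1
  rw [h3] at h1
  exact h1.trans (Finset.prod_le_one (fun i _ => norm_nonneg _) (fun i _ => hw i))

theorem DE_std : DE (fun i : Fin (m + 1) => (EuclideanSpace.single i 1 : E (m + 1))) = 1 := by
  unfold DE
  have : (Matrix.of fun i j : Fin (m + 1) => (EuclideanSpace.single i 1 : E (m + 1)) j) = 1 := by
    ext i j
    by_cases h : i = j
    · subst h; simp
    · simp [h, Ne.symm h]
  rw [this, Matrix.det_one]

theorem ell_body (T : E (m + 1) ≃ₗ[ℝ] E (m + 1)) : IsSymmBody (T '' closedBall 0 1) where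
  compact := (isCompact_closedBall _ _).image
    (LinearMap.continuous_of_finiteDimensional (T : E (m + 1) →ₗ[ℝ] E (m + 1)))
  convex := (convex_closedBall _ _).linear_image (T : E (m + 1) →ₗ[ℝ] E (m + 1))
  interior_nonempty := by
    have h1 : IsOpen (T '' ball 0 1) :=
      T.toContinuousLinearEquiv.toHomeomorph.isOpenMap _ isOpen_ball
    exact ⟨0, mem_interior.2 ⟨_, image_mono ball_subset_closedBall, h1, 0, by simp, by simp⟩⟩
  symm := by
    rintro _ ⟨x, hx, rfl⟩
    exact ⟨-x, by simpa using hx, by simp⟩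

theorem mass_ell (T : E (m + 1) ≃ₗ[ℝ] E (m + 1)) : mass (T '' closedBall 0 1) = kappa (m + 1) := by
  set δ : ℝ := LinearMap.det (T : E (m + 1) →ₗ[ℝ] E (m + 1)) with hδ
  have hδ0 : δ ≠ 0 := T.isUnit_det'.ne_zero
  have hA : 0 < |δ| := abs_pos.2 hδ0
  have hbd : BdE |δ| (T '' closedBall 0 1) := by
    intro p hp
    choose w hw hwp using hp
    have : p = fun i => T (w i) := funext fun i => (hwp i).symm
    rw [this, DE_image, abs_mul]
    have := hadamard w (fun i => by simpa using hw i)
    nlinarith
  rw [mass_eq hA hbd (v := fun i => T (EuclideanSpace.single i 1))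
    (fun i => ⟨_, by simp, rfl⟩) (by rw [DE_image, DE_std, mul_one])]
  have h1 : volume (T '' closedBall (0 : E (m + 1)) 1) =
      ENNReal.ofReal |δ| * volume (closedBall (0 : E (m + 1)) 1) :=
    Measure.addHaar_image_linearMap _ (T : E (m + 1) →ₗ[ℝ] E (m + 1)) _
  have h2 : volume (closedBall (0 : E (m + 1)) 1) = ENNReal.ofReal (kappa (m + 1)) := kap_eq
  rw [h1, h2, ← ENNReal.ofReal_mul hA.le, ENNReal.toReal_ofReal (by
    have := kappa_pos (m := m); positivity)]
  field_simp

theorem ell_of_eq {M : Set (E (m + 1))} (hM : IsSymmBody M) (h : mass M = kappa (m + 1)) :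
    ∃ T : E (m + 1) ≃ₗ[ℝ] E (m + 1), M = T '' closedBall 0 1 := by
  obtain ⟨A, hA, hbd, v, hv, hvA⟩ := exists_max hM
  rw [mass_eq hA hbd hv hvA, div_eq_iff hA.ne'] at h
  have hE : ExtrE A M :=
    { pos := hA
      compact := hM.compact
      convex := hM.convex
      symm := hM.symm
      int := zero_mem_interior hM
      bd := hbd
      vol := by
        rw [kap_eq, ← ENNReal.ofReal_mul hA.le, mul_comm, ← h,
          ENNReal.ofReal_toReal hM.compact.measure_lt_top.ne] }
  exact ellipsoid hE

end

/-- **The greatest Gromov mass of a unit ball.** For every `d ≥ 1` the greatest value of Gromov's mass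
`vol^m_M(M)` over all `o`-symmetric convex bodies `M ⊂ ℝᵈ` is `κ_d = π^(d/2) / Γ(d/2 + 1)`, the volume
of the Euclidean unit ball, and the bodies attaining it are exactly the ellipsoids centred at the
origin. -/
theorem result (d : ℕ) (hd : 1 ≤ d) :
    IsGreatest {x : ℝ | ∃ M : Set (E d), IsSymmBody M ∧ x = mass M} (kappa d) ∧
    ∀ M : Set (E d), IsSymmBody M →
      (mass M = kappa d ↔ ∃ T : E d ≃ₗ[ℝ] E d, M = T '' Metric.closedBall 0 1) := by
  obtain ⟨m, rfl⟩ : ∃ m, d = m + 1 := ⟨d - 1, by omega⟩
  refine ⟨⟨⟨_, ell_body (LinearEquiv.refl ℝ _), (mass_ell _).symm⟩, ?_⟩, fun M hM => ⟨?_, ?_⟩⟩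
  · rintro x ⟨M, hM, rfl⟩
    exact mass_le hM
  · exact ell_of_eq hM
  · rintro ⟨T, rfl⟩
    exact mass_ell T

end Pool.Agent.Results.MP_77d991_gt.MassMaximum
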